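import Pool.Agent.Helper77.HVecDefs
import Pool.Agent.Helper77.Assemble

/-!
# The H-vector of almost all matroids is nondecreasing (MP_41cc10_co, Q1)

For each `m`, among all matroids whose ground set is the whole of `Fin m`, the proportion of those
whose H-vector is nondecreasing tends to `1` as `m` tends to infinity.
-/

open Filter Topology

namespace Pool.Agent.Results.MP_41cc10_co.HVectorAlmostAll

open Pool.Agent.Helper77

/-- The proportion of matroids on `Fin m` with a nondecreasing H-vector tends to `1`. -/
theorem result :
    Tendsto (fun m : ℕ =>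
      (({M : Matroid (Fin m) | M.E = Set.univ ∧ HVecNondecreasing M}.ncard : ℕ) : ℝ) /
        (({M : Matroid (Fin m) | M.E = Set.univ}.ncard : ℕ) : ℝ)) atTop (𝓝 1) :=
  Pool.Agent.Helper77.main

end Pool.Agent.Results.MP_41cc10_co.HVectorAlmostAll
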